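import Mathlib

namespace Pool.Agent.H.MP_ff738c_co

open Matrix

def D (n : ℕ) (K : ℕ → ℕ → ℤ) : ℤ := (Matrix.of fun i j : Fin n => K i j).det

lemma D_congr {n : ℕ} {K L : ℕ → ℕ → ℤ} (h : ∀ i < n, ∀ j < n, K i j = L i j) : D n K = D n L := by
  unfold D
  congr 1
  ext i j
  exact h i i.2 j j.2

@[simp] lemma D_zero (K : ℕ → ℕ → ℤ) : D 0 K = 1 := by simp [D]

lemma D_transpose (n : ℕ) (K : ℕ → ℕ → ℤ) : D n K = D n (fun i j => K j i) := by
  unfold D
  rw [← det_transpose]
  rfl

lemma D_id (n : ℕ) : D n (fun i j => if i = j then 1 else 0) = 1 := by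
  unfold D
  have : (Matrix.of fun i j : Fin n => if (i : ℕ) = j then (1 : ℤ) else 0) = 1 := by
    ext i j
    simp [Matrix.one_apply, Fin.ext_iff]
  rw [this, det_one]

lemma D_rowop (n : ℕ) (K : ℕ → ℕ → ℤ) (c : ℕ → ℤ) (hc : c 0 = 0) :
    D n K = D n (fun i j => K i j - c i * K (i - 1) j) := by
  cases n with
  | zero => simp
  | succ n =>
    unfold D
    refine det_eq_of_forall_row_eq_smul_add_pred (fun i => c (i + 1)) ?_ ?_
    · intro j; simp [hc]
    · intro i j; simp

lemma D_scale (n : ℕ) (K : ℕ → ℕ → ℤ) (v : ℕ → ℤ) :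
    D n (fun i j => v i * K i j) = (∏ i ∈ Finset.range n, v i) * D n K := by
  unfold D
  rw [← Fin.prod_univ_eq_prod_range]
  exact det_mul_column (fun i : Fin n => v i) _

lemma D_perm (n : ℕ) (K : ℕ → ℕ → ℤ) (σ : Equiv.Perm (Fin n)) (s : ℕ → ℕ)
    (hs : ∀ i, (σ i : ℕ) = s i) : D n (fun i j => K (s i) j) = Equiv.Perm.sign σ * D n K := by
  unfold D
  rw [← Int.cast_id (n := Equiv.Perm.sign σ), ← det_permute]
  congr 1
  ext i j
  simp [hs]

lemma D_invol (n k : ℕ) (K : ℕ → ℕ → ℤ) (s : ℕ → ℕ) (h1 : ∀ i < n, s i < n)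
    (h2 : ∀ i < n, s (s i) = i) (h3 : ((Finset.range n).filter (fun i => s i = i)).card = k) :
    D n (fun i j => K (s i) j) = (-1) ^ ((n - k) / 2) * D n K := by
  let f : Fin n → Fin n := fun i => ⟨s i, h1 i i.2⟩
  have hf : Function.Involutive f := fun i => Fin.ext (h2 i i.2)
  rw [D_perm n K hf.toPerm s (fun i => rfl), Equiv.Perm.sign_of_pow_two_eq_one
    (by ext i; simp [pow_two, hf i])]
  have : Fintype.card (Function.fixedPoints hf.toPerm) = k := by
    rw [← h3, Fintype.card_of_subtype (Finset.univ.filter (fun i : Fin n => s i = i))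
      (by intro x; simp [Function.IsFixedPt, f, Fin.ext_iff])]
    rw [← Finset.card_map Fin.valEmbedding]
    congr 1
    ext x
    simp only [Finset.mem_map, Finset.mem_filter, Finset.mem_univ, true_and,
      Fin.valEmbedding_apply, Finset.mem_range]
    constructor
    · rintro ⟨a, ha, rfl⟩; exact ⟨a.2, ha⟩
    · rintro ⟨a, ha⟩; exact ⟨⟨x, a⟩, ha, rfl⟩
  rw [this]
  simp

lemma D_rot1 (n : ℕ) (K : ℕ → ℕ → ℤ) :
    D n (fun i j => K ((i + 1) % n) j) = (-1) ^ (n - 1) * D n K := by
  rw [D_perm n K (finRotate n) (fun i => (i + 1) % n), sign_finRotate]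
  · simp
  · intro i
    cases n with
    | zero => exact i.elim0
    | succ n =>
      rw [finRotate_apply, Fin.val_add]
      simp

lemma D_rot (n m : ℕ) (K : ℕ → ℕ → ℤ) :
    D n (fun i j => K ((i + m) % n) j) = (-1) ^ (m * (n - 1)) * D n K := by
  induction m generalizing K with
  | zero =>
    simp only [add_zero, zero_mul, pow_zero, one_mul]
    exact D_congr fun i hi j _ => by rw [Nat.mod_eq_of_lt hi]
  | succ m ih =>
    have h1 := D_rot1 n (fun i j => K ((i + m) % n) j)
    rw [ih] at h1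
    rw [add_mul, one_mul, pow_add, mul_comm ((-1) ^ (m * (n - 1))), mul_assoc, ← h1]
    refine D_congr fun i _ j _ => ?_
    rw [Nat.mod_add_mod, show i + 1 + m = i + (m + 1) by ring]

lemma D_split {n p q : ℕ} (K : ℕ → ℕ → ℤ) (e : Fin p ⊕ Fin q ≃ Fin n) (u v : ℕ → ℕ)
    (hu : ∀ a, (e (Sum.inl a) : ℕ) = u a) (hv : ∀ a, (e (Sum.inr a) : ℕ) = v a)
    (h0 : ∀ a < q, ∀ b < p, K (v a) (u b) = 0) :
    D n K = D p (fun a b => K (u a) (u b)) * D q (fun a b => K (v a) (v b)) := by
  unfold D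
  rw [← det_submatrix_equiv_self e, ← det_fromBlocks_zero₂₁ _
    (Matrix.of fun (a : Fin p) (b : Fin q) => K (u a) (v b))]
  congr 1
  ext i j
  rcases i with i | i <;> rcases j with j | j <;> simp [hu, hv, h0]

lemma D_block (p q : ℕ) (K : ℕ → ℕ → ℤ) (h0 : ∀ a < q, ∀ b < p, K (p + a) b = 0) :
    D (p + q) K = D p K * D q (fun a b => K (p + a) (p + b)) :=
  D_split K finSumFinEquiv id (fun a => p + a) (by simp) (by simp) h0

def eo (n : ℕ) : Fin ((n + 1) / 2) ⊕ Fin (n / 2) ≃ Fin n where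
  toFun := Sum.elim (fun a => ⟨2 * a, by omega⟩) (fun a => ⟨2 * a + 1, by omega⟩)
  invFun := fun i => if h : (i : ℕ) % 2 = 0 then Sum.inl ⟨i / 2, by omega⟩
    else Sum.inr ⟨i / 2, by omega⟩
  left_inv := by
    rintro (a | a)
    · simp
    · have h1 : (2 * (a : ℕ) + 1) % 2 = 1 := by omega
      have h2 : (2 * (a : ℕ) + 1) / 2 = a := by omega
      simp [h1, h2]
  right_inv := by
    intro i
    by_cases h : (i : ℕ) % 2 = 0
    · simp only [h, dite_true, Sum.elim_inl]; ext; simp only; omega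
    · simp only [h, dite_false, Sum.elim_inr]; ext; simp only; omega

lemma D_eo (n : ℕ) (K : ℕ → ℕ → ℤ) (h0 : ∀ a b, K (2 * a + 1) (2 * b) = 0) :
    D n K = D ((n + 1) / 2) (fun a b => K (2 * a) (2 * b)) *
      D (n / 2) (fun a b => K (2 * a + 1) (2 * b + 1)) :=
  D_split K (eo n) (fun a => 2 * a) (fun a => 2 * a + 1) (fun _ => rfl) (fun _ => rfl)
    (fun a _ b _ => h0 a b)

lemma D_eo' (n : ℕ) (K : ℕ → ℕ → ℤ) (h0 : ∀ a b, K (2 * a) (2 * b + 1) = 0) :
    D n K = D ((n + 1) / 2) (fun a b => K (2 * a) (2 * b)) *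
      D (n / 2) (fun a b => K (2 * a + 1) (2 * b + 1)) := by
  rw [D_transpose, D_eo n _ (fun a b => h0 b a), D_transpose, D_transpose (n / 2)]

/-- Toeplitz determinant -/
def T (f : ℤ → ℤ) (m n : ℕ) : ℤ := D n (fun i j => f (m + i - j))

@[simp] lemma T_zero (f : ℤ → ℤ) (m : ℕ) : T f m 0 = 1 := by simp [T]

section
variable (f g g' : ℤ → ℤ) (l : ℤ) (he : ∀ k, f (2 * k) = g k) (ho : ∀ k, f (2 * k + 1) = l * g k)
  (hg : ∀ k, g' k = g k - l * l * g (k - 1))
include he ho hg

lemma T_even (μ n : ℕ) : T f (2 * μ) n = T g μ ((n + 1) / 2) * T g' μ (n / 2) := by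
  unfold T
  rw [D_rowop n _ (fun i => if i % 2 = 1 then l else 0) (by simp), D_eo]
  · congr 1
    · refine D_congr fun a _ b _ => ?_
      rw [if_neg (by omega), zero_mul, sub_zero, ← he]
      congr 1; push_cast; ring
    · refine D_congr fun a _ b _ => ?_
      rw [if_pos (by omega), hg, mul_assoc, ← ho, ← he, Nat.add_sub_cancel]
      congr 2
      · push_cast; ring
      · congr 1; push_cast; ring
  · intro a b
    rw [if_pos (by omega), Nat.add_sub_cancel,
      show ((2 * μ : ℕ) : ℤ) + (2 * a + 1 : ℕ) - (2 * b : ℕ) = 2 * (μ + a - b) + 1 by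
        push_cast; ring,
      show ((2 * μ : ℕ) : ℤ) + (2 * a : ℕ) - (2 * b : ℕ) = 2 * (μ + a - b) by push_cast; ring,
      he, ho, sub_self]

lemma T_odd_even (μ ν : ℕ) :
    T f (2 * μ + 1) (2 * ν) = (-1) ^ ν * (T g μ ν * T g' (μ + 1) ν) := by
  unfold T
  have h1 := D_invol (2 * ν) 0 (fun i j => f ((2 * μ + 1 : ℕ) + i - j) -
      (if i % 2 = 1 then l else 0) * f ((2 * μ + 1 : ℕ) + (i - 1 : ℕ) - j))
    (fun i => if i % 2 = 0 then i + 1 else i - 1)
    (by intro i hi; split_ifs <;> omega) (by intro i hi; split_ifs <;> omega)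
    (by
      rw [Finset.card_eq_zero, Finset.filter_eq_empty_iff]
      intro i _; split_ifs <;> omega)
  rw [← D_rowop (2 * ν) (fun i j => f ((2 * μ + 1 : ℕ) + i - j)) _ (by simp), D_eo',
    show (2 * ν - 0) / 2 = ν by omega, show (2 * ν + 1) / 2 = ν by omega,
    show 2 * ν / 2 = ν by omega] at h1
  · have h2 : ((-1 : ℤ) ^ ν) * (-1) ^ ν = 1 := by rw [← mul_pow]; simp
    refine (one_mul _).symm.trans ?_
    nth_rw 1 [← h2]
    rw [mul_assoc, ← h1, mul_comm (D ν _)]
    refine congrArg _ (congrArg₂ _ ?_ ?_)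
    · refine D_congr fun a _ b _ => ?_
      simp only [show (2 * a + 1) % 2 = 1 by omega, one_ne_zero, if_false, Nat.add_sub_cancel,
        show (2 * a) % 2 = 0 by omega, zero_ne_one, zero_mul, sub_zero]
      rw [← he]
      congr 1; push_cast; ring
    · refine D_congr fun a _ b _ => ?_
      simp only [show (2 * a + 1) % 2 = 1 by omega, if_true, Nat.add_sub_cancel,
        show (2 * a) % 2 = 0 by omega]
      rw [hg, mul_assoc, ← ho, ← he]
      congr 2
      · push_cast; ring
      · congr 1; push_cast; ring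
  · intro a b
    simp only [show (2 * a + 1) % 2 = 1 by omega, if_true, Nat.add_sub_cancel,
      show (2 * a) % 2 = 0 by omega]
    rw [show ((2 * μ + 1 : ℕ) : ℤ) + (2 * a + 1 : ℕ) - (2 * b + 1 : ℕ) = 2 * (μ + a - b) + 1 by
        push_cast; ring,
      show ((2 * μ + 1 : ℕ) : ℤ) + (2 * a : ℕ) - (2 * b + 1 : ℕ) = 2 * (μ + a - b) by
        push_cast; ring,
      he, ho, sub_self]

lemma T_odd_odd (μ ν : ℕ) :
    T f (2 * μ + 1) (2 * ν + 1) = (-1) ^ ν * (l * T g μ (ν + 1) * T g' (μ + 1) ν) := by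
  unfold T
  have h1 := D_invol (2 * ν + 1) 1 (fun i j => f ((2 * μ + 1 : ℕ) + i - j) -
      (if i % 2 = 0 ∧ i ≠ 0 then l else 0) * f ((2 * μ + 1 : ℕ) + (i - 1 : ℕ) - j))
    (fun i => if i % 2 = 0 then i - 1 else i + 1)
    (by intro i hi; split_ifs <;> omega) (by intro i hi; split_ifs <;> omega)
    (by
      rw [Finset.card_eq_one]
      refine ⟨0, ?_⟩
      ext i
      simp only [Finset.mem_filter, Finset.mem_range, Finset.mem_singleton]
      split_ifs <;> omega)
  rw [← D_rowop (2 * ν + 1) (fun i j => f ((2 * μ + 1 : ℕ) + i - j)) _ (by simp), D_eo,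
    show (2 * ν + 1 - 1) / 2 = ν by omega, show (2 * ν + 1 + 1) / 2 = ν + 1 by omega,
    show (2 * ν + 1) / 2 = ν by omega] at h1
  · have h2 : ((-1 : ℤ) ^ ν) * (-1) ^ ν = 1 := by rw [← mul_pow]; simp
    refine (one_mul _).symm.trans ?_
    nth_rw 1 [← h2]
    rw [mul_assoc, ← h1]
    refine congrArg _ (congrArg₂ _ ?_ ?_)
    · have h3 := D_scale (ν + 1) (fun i j => g (μ + i - j)) (fun i => if i = 0 then l else 1)
      rw [Finset.prod_range_succ'] at h3
      simp only [Nat.add_eq_zero_iff, one_ne_zero, and_false, if_false, Finset.prod_const_one,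
        if_true, one_mul] at h3
      rw [← h3]
      refine D_congr fun a _ b _ => ?_
      simp only [show (2 * a) % 2 = 0 by omega, if_true]
      rw [if_neg (by omega), zero_mul, sub_zero]
      rcases a with _ | a
      · rw [if_pos rfl, ← ho]
        congr 1; push_cast; ring
      · rw [if_neg (by omega), one_mul, ← he, show 2 * (a + 1) - 1 = 2 * a + 1 by omega]
        congr 1; push_cast; ring
    · refine D_congr fun a _ b _ => ?_
      simp only [show (2 * a + 1) % 2 = 1 by omega, one_ne_zero, if_false, Nat.add_sub_cancel]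
      rw [if_pos (by omega), hg, mul_assoc, ← ho, ← he]
      congr 2
      · push_cast; ring
      · congr 1; push_cast; ring
  · intro a b
    simp only [show (2 * a + 1) % 2 = 1 by omega, one_ne_zero, if_false, Nat.add_sub_cancel]
    rw [if_pos (by omega),
      show ((2 * μ + 1 : ℕ) : ℤ) + (2 * a + 1 + 1 : ℕ) - (2 * b : ℕ) = 2 * (μ + a + 1 - b) + 1 by
        push_cast; ring,
      show ((2 * μ + 1 : ℕ) : ℤ) + (2 * a + 1 : ℕ) - (2 * b : ℕ) = 2 * (μ + a + 1 - b) by
        push_cast; ring,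
      he, ho, sub_self]

end

lemma T_twist (f g : ℤ → ℤ) (h : ∀ k : ℤ, ∀ e : ℕ, Even (k + e) → f k = (-1) ^ e * g k)
    (m n : ℕ) : T f m n = (-1) ^ (m * n) * T g m n := by
  unfold T
  have h1 : D n (fun i j => f (m + i - j)) =
      D n (fun i j => (-1) ^ (m + i) * ((-1) ^ j * g (m + i - j))) := by
    refine D_congr fun i _ j _ => ?_
    rw [h _ (m + i + j) ⟨m + i, by push_cast; ring⟩]
    ring
  rw [h1, D_scale, D_transpose, D_scale, ← D_transpose, ← mul_assoc, ← Finset.prod_mul_distrib]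
  congr 1
  rw [Finset.prod_congr rfl (g := fun _ => (-1 : ℤ) ^ m)]
  · simp [pow_mul]
  · intro i _
    rw [pow_add, mul_assoc, ← mul_pow]; simp

lemma T_dual (f g : ℤ → ℤ) (hg0 : g 0 = 1) (hg : ∀ k < 0, g k = 0)
    (hc : ∀ N i j : ℕ, i < N →
      ∑ k ∈ Finset.range N, g (i - k) * f (k - j) = if i = j then 1 else 0) (m n : ℕ) :
    T g n m = (-1) ^ (m * n) * T f m n := by
  let X : ℕ → ℕ → ℤ := fun i j => if j < n then f (i - j) else if i + n = j then 1 else 0
  have hL : D (n + m) (fun i j => g (i - j)) = 1 := by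
    unfold D
    rw [det_of_isLowerTriangular]
    · simp [hg0]
    · intro i j hij
      exact hg _ (by have : (i : ℕ) < j := hij; omega)
  have hmul : D (n + m) (fun i j => g (i - j)) * D (n + m) X =
      D (n + m) (fun i j => if j < n then (if i = j then 1 else 0) else g (i + n - j)) := by
    unfold D
    rw [← det_mul]
    congr 1
    ext i j
    simp only [Matrix.mul_apply, of_apply, X]
    rw [Fin.sum_univ_eq_sum_range (fun k => g (i - k) *
      (if (j : ℕ) < n then f (k - j) else if k + n = j then 1 else 0))]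
    split_ifs with h1 h2
    · rw [hc _ _ _ i.2, if_pos h2]
    · rw [hc _ _ _ i.2, if_neg h2]
    · rw [Finset.sum_eq_single (j - n)]
      · rw [if_pos (by omega), mul_one]
        congr 1
        push_cast [Nat.cast_sub (not_lt.1 h1)]
        ring
      · intro k _ hk
        rw [if_neg (by omega), mul_zero]
      · intro h; exact absurd (Finset.mem_range.2 (by omega)) h
  have h3 : D (n + m) (fun i j => if j < n then (if i = j then 1 else 0) else g (i + n - j)) =
      T g n m := by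
    rw [D_block _ _ _ (fun a _ b hb => by rw [if_pos hb, if_neg (by omega)]),
      D_congr (L := fun i j => if i = j then 1 else 0) (fun i _ j hj => if_pos hj), D_id, one_mul]
    refine D_congr fun a _ b _ => ?_
    rw [if_neg (by omega)]
    congr 1; push_cast; ring
  have h4 := D_rot (n + m) m X
  rw [D_transpose, D_block _ _ _ (fun a ha b hb => by
    simp only [X]
    rw [if_neg (by omega), if_neg (by rw [Nat.mod_eq_of_lt (by omega)]; omega)]),
    D_congr (n := m) (L := fun i j => if i = j then 1 else 0) (fun i hi j hj => by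
      simp only [X]
      rw [if_neg (by omega), show n + j + m = j + (n + m) by ring, Nat.add_mod_right,
        Nat.mod_eq_of_lt (by omega)]
      exact if_congr (by omega) rfl rfl), D_id, mul_one, D_transpose,
    D_congr (L := fun i j => f (m + i - j)) (fun i hi j hj => by
      simp only [X]
      rw [if_pos hj, Nat.mod_eq_of_lt (by omega)]
      congr 1; push_cast; ring)] at h4
  rw [hL, one_mul, h3] at hmul
  have h5 : ((-1 : ℤ) ^ (m * n)) * (-1) ^ (m * (n + m - 1)) = 1 := by
    rw [← pow_add]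
    apply Even.neg_one_pow
    rcases m with _ | m
    · simp
    · rw [show n + (m + 1) - 1 = n + m by omega,
        show (m + 1) * n + (m + 1) * (n + m) = 2 * ((m + 1) * n) + m * (m + 1) by ring]
      exact (even_two_mul _).add (Nat.even_mul_succ_self m)
  rw [← hmul, T, h4, ← mul_assoc, h5, one_mul]

end Pool.Agent.H.MP_ff738c_co
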