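import Mathlib
import Pool.Agent.H.MP_ff738c_co.A

namespace Pool.Agent.H.MP_ff738c_co

open PowerSeries

noncomputable def ext (F : ℤ⟦X⟧) (k : ℤ) : ℤ := if 0 ≤ k then coeff k.toNat F else 0

@[simp] lemma ext_nat (F : ℤ⟦X⟧) (k : ℕ) : ext F k = coeff k F := by simp [ext]

lemma ext_neg (F : ℤ⟦X⟧) (k : ℤ) (h : k < 0) : ext F k = 0 := if_neg (by omega)

lemma ext_conv (F G : ℤ⟦X⟧) (h : G * F = 1) (N i j : ℕ) (hi : i < N) :
    ∑ k ∈ Finset.range N, ext G (i - k) * ext F (k - j) = if i = j then 1 else 0 := by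
  by_cases hij : i < j
  · rw [if_neg hij.ne]
    refine Finset.sum_eq_zero fun k _ => ?_
    by_cases hk : k < j
    · rw [ext_neg F _ (by omega), mul_zero]
    · rw [ext_neg G _ (by omega), zero_mul]
  · obtain ⟨d, rfl⟩ : ∃ d, i = j + d := ⟨i - j, by omega⟩
    rw [← Finset.sum_subset (s₁ := Finset.Ico j (j + d + 1))]
    · rw [Finset.sum_Ico_eq_sum_range, show j + d + 1 - j = d + 1 by omega]
      have := congrArg (coeff d) (mul_comm F G ▸ h)
      rw [coeff_mul, Finset.Nat.sum_antidiagonal_eq_sum_range_succ_mk, coeff_one] at this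
      rw [if_congr (show j + d = j ↔ d = 0 by omega) rfl rfl, ← this]
      refine Finset.sum_congr rfl fun k hk => ?_
      have hk' : k ≤ d := by simpa [Nat.lt_succ_iff] using hk
      rw [mul_comm, ← ext_nat, ← ext_nat]
      congr 2
      · push_cast; ring
      · push_cast [Nat.cast_sub hk']; ring
    · intro k hk
      simp only [Finset.mem_Ico, Finset.mem_range] at hk ⊢
      omega
    · intro k _ hk
      simp only [Finset.mem_Ico, not_and, not_lt] at hk
      by_cases hk' : k < j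
      · rw [ext_neg F _ (by omega), mul_zero]
      · have := hk (by omega)
        rw [ext_neg G _ (by push_cast; omega), zero_mul]

lemma ext_X_mul (F : ℤ⟦X⟧) (k : ℤ) : ext (X * F) k = ext F (k - 1) := by
  rcases lt_trichotomy k 0 with h | rfl | h
  · rw [ext_neg _ _ h, ext_neg _ _ (by omega)]
  · rw [ext_neg F _ (by omega)]; simp [ext]
  · obtain ⟨n, rfl⟩ : ∃ n : ℕ, k = (n + 1 : ℕ) := ⟨(k - 1).toNat, by omega⟩
    rw [ext_nat, coeff_succ_X_mul, ← ext_nat]
    congr 1; push_cast; ring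

lemma ext_add_X (F : ℤ⟦X⟧) (k : ℤ) : ext ((1 + X) * F) k = ext F k + ext F (k - 1) := by
  rw [← ext_X_mul, add_mul, one_mul]
  unfold ext
  split_ifs <;> simp

lemma ext_sub_X (F : ℤ⟦X⟧) (k : ℤ) : ext ((1 - X) * F) k = ext F k - ext F (k - 1) := by
  rw [← ext_X_mul, sub_mul, one_mul]
  unfold ext
  split_ifs <;> simp

lemma ext_expand (p : ℕ) (hp : p ≠ 0) (F : ℤ⟦X⟧) (k : ℤ) :
    ext (expand p hp F) (p * k) = ext F k := by
  rcases lt_or_ge k 0 with h | h
  · rw [ext_neg _ _ h, ext_neg _ _ (mul_neg_of_pos_of_neg (by positivity) h)]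
  · obtain ⟨n, rfl⟩ := Int.eq_ofNat_of_zero_le h
    rw [← Nat.cast_mul, ext_nat, ext_nat, coeff_expand_mul]

lemma ext_expand' (p : ℕ) (hp : p ≠ 0) (F : ℤ⟦X⟧) (k : ℤ) (hk : ¬ (p : ℤ) ∣ k) :
    ext (expand p hp F) k = 0 := by
  rcases lt_or_ge k 0 with h | h
  · rw [ext_neg _ _ h]
  · obtain ⟨n, rfl⟩ := Int.eq_ofNat_of_zero_le h
    rw [ext_nat, coeff_expand_of_not_dvd _ _ _ (by exact_mod_cast hk)]

def MdB (n : ℕ) : Prop := ∃ S : Finset ℕ, ∑ k ∈ S, 4 ^ k = n

lemma MdB_iff (q r : ℕ) (hr : r < 4) : MdB (4 * q + r) ↔ r ≤ 1 ∧ MdB q := by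
  constructor
  · rintro ⟨S, hS⟩
    have h1 : ∑ k ∈ S, 4 ^ k = (if 0 ∈ S then 1 else 0) +
        4 * ∑ k ∈ S.preimage (· + 1) (add_left_injective 1).injOn, 4 ^ k := by
      rw [Finset.mul_sum, ← Finset.sum_filter_add_sum_filter_not S (· = 0)]
      congr 1
      · rw [Finset.filter_eq']
        split_ifs <;> simp
      · symm
        refine Finset.sum_bij (fun k _ => k + 1) (by simp) (by simp) ?_
          (by intro a _; ring)
        intro k hk
        simp only [Finset.mem_filter] at hk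
        refine ⟨k - 1, ?_, by omega⟩
        simp only [Finset.mem_preimage]
        rw [Nat.sub_add_cancel (by omega)]
        exact hk.1
    rw [h1] at hS
    refine ⟨by split_ifs at hS <;> omega, S.preimage (· + 1) (add_left_injective 1).injOn, ?_⟩
    split_ifs at hS <;> omega
  · rintro ⟨h, S, rfl⟩
    have h1 : ∑ k ∈ S.map (addRightEmbedding 1), 4 ^ k = 4 * ∑ k ∈ S, 4 ^ k := by
      rw [Finset.sum_map, Finset.mul_sum]
      exact Finset.sum_congr rfl fun k _ => by simp [pow_succ, mul_comm]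
    interval_cases r
    · exact ⟨_, h1⟩
    · refine ⟨insert 0 (S.map (addRightEmbedding 1)), ?_⟩
      rw [Finset.sum_insert (by simp), h1]
      ring

open Classical in
noncomputable def M (n : ℕ) : ℤ := if MdB n then 1 else 0

lemma M_zero : M 0 = 1 := if_pos ⟨∅, rfl⟩
lemma M0 (q : ℕ) : M (4 * q) = M q := by
  classical
  have := MdB_iff q 0 (by norm_num); exact if_congr (by simpa using this) rfl rfl
lemma M1 (q : ℕ) : M (4 * q + 1) = M q := by
  classical
  have := MdB_iff q 1 (by norm_num); exact if_congr (by simpa using this) rfl rfl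
lemma M2 (q : ℕ) : M (4 * q + 2) = 0 := by
  have := MdB_iff q 2 (by norm_num); simp only [M]; simp_all
lemma M3 (q : ℕ) : M (4 * q + 3) = 0 := by
  have := MdB_iff q 3 (by norm_num); simp only [M]; simp_all
lemma M_cases (n : ℕ) : M n = 0 ∨ M n = 1 := by unfold M; split_ifs <;> simp

noncomputable def B : ℤ⟦X⟧ := mk M
noncomputable def E2 : ℤ⟦X⟧ := expand 2 two_ne_zero B
noncomputable def E4 : ℤ⟦X⟧ := expand 4 (by norm_num) B
noncomputable def A : ℤ⟦X⟧ := (1 + X) * E2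

lemma E4_0 (k : ℤ) : ext E4 (4 * k) = ext B k := ext_expand 4 _ B k
lemma E4_1 (k : ℤ) (h : k % 4 ≠ 0) : ext E4 k = 0 := ext_expand' 4 _ B k (by push_cast; omega)
lemma E2_0 (k : ℤ) : ext E2 (2 * k) = ext B k := ext_expand 2 _ B k
lemma E2_1 (k : ℤ) (h : k % 2 ≠ 0) : ext E2 k = 0 := ext_expand' 2 _ B k (by push_cast; omega)

lemma B_eq : B = (1 + X) * E4 := by
  ext n
  rw [← ext_nat ((1 + X) * E4), ext_add_X, B, coeff_mk]
  obtain ⟨q, r, hr, rfl⟩ : ∃ q r, r < 4 ∧ n = 4 * q + r := ⟨n / 4, n % 4, by omega, by omega⟩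
  have h := E4_0 q
  rw [ext_nat, B, coeff_mk] at h
  interval_cases r
  · rw [add_zero, M0, E4_1 (_ - 1) (by omega), ← h]; simp
  · rw [M1, E4_1 _ (by omega), ← h]; simp
  · rw [M2, E4_1 _ (by omega), E4_1 _ (by omega)]; simp
  · rw [M3, E4_1 _ (by omega), E4_1 _ (by omega)]; simp

lemma exp_E2 : expand 2 two_ne_zero E2 = E4 := by
  rw [E2, E4, ← expand_mul]

lemma B0 : constantCoeff B = 1 := by
  rw [← coeff_zero_eq_constantCoeff_apply, B, coeff_mk, M_zero]

lemma P_one : B * E2 * (1 - X) = 1 := by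
  have h : B * E2 * (1 - X) = expand 2 two_ne_zero (B * E2 * (1 - X)) := by
    rw [map_mul, map_mul, map_sub, map_one, expand_X, exp_E2, ← E2]
    nth_rw 1 [B_eq]
    ring
  ext n
  induction n using Nat.strong_induction_on with
  | _ n ih =>
    rcases Nat.eq_zero_or_pos n with rfl | hn
    · simp [B0, E2]
    · rw [h, coeff_expand, coeff_one, if_neg hn.ne']
      split_ifs with h2
      · rw [ih _ (by omega), coeff_one, if_neg (by omega)]
      · rfl

lemma A_inv : (1 - X) * E4 * A = 1 := by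
  have := congrArg (expand 2 two_ne_zero) P_one
  rw [map_mul, map_mul, map_sub, map_one, expand_X, exp_E2, ← E2] at this
  rw [A]
  linear_combination this

noncomputable def al (m n : ℕ) : ℤ := T (ext A) m n
noncomputable def ga (m n : ℕ) : ℤ := T (ext ((1 - X) * B)) m n
noncomputable def de (m n : ℕ) : ℤ := T (ext E2) m n

lemma be_eq (m n : ℕ) : T (ext B) n m = al m n := by
  have h1 := T_dual (ext A) (ext ((1 - X) * E4))
    (by rw [← Nat.cast_zero, ext_nat]; simp [E4, B0]) (ext_neg _) (ext_conv _ _ A_inv) m n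
  have h2 := T_twist (ext ((1 - X) * E4)) (ext B) (by
    intro k e he
    nth_rw 1 [B_eq]
    rw [ext_add_X, ext_sub_X]
    rcases Nat.even_or_odd e with h | h
    · rw [h.neg_one_pow, E4_1 (k - 1) (by obtain ⟨a, ha⟩ := he; obtain ⟨b, hb⟩ := h; omega)]
      ring
    · rw [h.neg_one_pow, E4_1 k (by obtain ⟨a, ha⟩ := he; obtain ⟨b, hb⟩ := h; omega)]
      ring) n m
  rw [h2, mul_comm n m] at h1
  exact mul_left_cancel₀ (pow_ne_zero _ (by norm_num)) h1

lemma ga_eq (m n : ℕ) : ga n m = (-1) ^ (m * n) * de m n :=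
  T_dual (ext E2) (ext ((1 - X) * B))
    (by rw [← Nat.cast_zero, ext_nat]; simp [B0]) (ext_neg _)
    (ext_conv _ _ (by linear_combination P_one)) m n

lemma A_0 (k : ℤ) : ext A (2 * k) = ext B k := by
  rw [A, ext_add_X, E2_0, E2_1 _ (by omega), add_zero]
lemma A_1 (k : ℤ) : ext A (2 * k + 1) = 1 * ext B k := by
  rw [A, ext_add_X, E2_1 _ (by omega), add_sub_cancel_right, E2_0]; ring
lemma C_0 (k : ℤ) : ext ((1 - X) * B) k = ext B k - 1 * 1 * ext B (k - 1) := by
  rw [ext_sub_X]; ring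
lemma E2_1' (k : ℤ) : ext E2 (2 * k + 1) = 0 * ext B k := by
  rw [E2_1 _ (by omega), zero_mul]
lemma B_0' (k : ℤ) : ext B k = ext B k - 0 * 0 * ext B (k - 1) := by ring

lemma al_ee (μ ν : ℕ) : al (2 * μ) (2 * ν) = (-1) ^ (ν * μ) * (al ν μ * de ν μ) := by
  rw [al, T_even _ _ _ 1 A_0 A_1 C_0, be_eq, ← ga, ga_eq, show (2 * ν + 1) / 2 = ν by omega,
    show 2 * ν / 2 = ν by omega]
  ring
lemma al_eo (μ ν : ℕ) : al (2 * μ) (2 * ν + 1) = (-1) ^ (ν * μ) * (al (ν + 1) μ * de ν μ) := by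
  rw [al, T_even _ _ _ 1 A_0 A_1 C_0, be_eq, ← ga, ga_eq,
    show (2 * ν + 1 + 1) / 2 = ν + 1 by omega, show (2 * ν + 1) / 2 = ν by omega]
  ring
lemma neg_sq (ν : ℕ) : ((-1 : ℤ) ^ ν) ^ 2 = 1 := by rw [← pow_mul, mul_comm, pow_mul]; simp
lemma al_oe (μ ν : ℕ) :
    al (2 * μ + 1) (2 * ν) = (-1) ^ (ν * μ) * (al ν μ * de ν (μ + 1)) := by
  rw [al, T_odd_even _ _ _ 1 A_0 A_1 C_0, be_eq, ← ga, ga_eq, mul_add, pow_add, mul_one]
  linear_combination ((-1) ^ (ν * μ) * (al ν μ * de ν (μ + 1))) * neg_sq ν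
lemma al_oo (μ ν : ℕ) :
    al (2 * μ + 1) (2 * ν + 1) = (-1) ^ (ν * μ) * (al (ν + 1) μ * de ν (μ + 1)) := by
  rw [al, T_odd_odd _ _ _ 1 A_0 A_1 C_0, be_eq, ← ga, ga_eq, mul_add, pow_add, mul_one]
  linear_combination ((-1) ^ (ν * μ) * (al (ν + 1) μ * de ν (μ + 1))) * neg_sq ν
lemma de_ee (μ ν : ℕ) : de (2 * μ) (2 * ν) = al ν μ * al ν μ := by
  rw [de, T_even _ _ _ 0 E2_0 E2_1' B_0', be_eq, be_eq, show (2 * ν + 1) / 2 = ν by omega,
    show 2 * ν / 2 = ν by omega]
lemma de_eo (μ ν : ℕ) : de (2 * μ) (2 * ν + 1) = al (ν + 1) μ * al ν μ := by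
  rw [de, T_even _ _ _ 0 E2_0 E2_1' B_0', be_eq, be_eq,
    show (2 * ν + 1 + 1) / 2 = ν + 1 by omega, show (2 * ν + 1) / 2 = ν by omega]
lemma de_oe (μ ν : ℕ) : de (2 * μ + 1) (2 * ν) = (-1) ^ ν * (al ν μ * al ν (μ + 1)) := by
  rw [de, T_odd_even _ _ _ 0 E2_0 E2_1' B_0', be_eq, be_eq]
lemma de_oo (μ ν : ℕ) : de (2 * μ + 1) (2 * ν + 1) = 0 := by
  rw [de, T_odd_odd _ _ _ 0 E2_0 E2_1' B_0']; simp
lemma al_n0 (m : ℕ) : al m 0 = 1 := by simp [al]
lemma al_0n (n : ℕ) : al 0 n = 1 := by rw [← be_eq]; simp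

def U (x : ℤ) : Prop := x = -1 ∨ x = 0 ∨ x = 1

lemma U.mul {x y : ℤ} (hx : U x) (hy : U y) : U (x * y) := by
  rcases hx with rfl | rfl | rfl <;> rcases hy with rfl | rfl | rfl <;> simp [U]

lemma U.sgn (k : ℕ) : U ((-1) ^ k) := by
  rcases neg_one_pow_eq_or ℤ k with h | h <;> simp [h, U]

lemma al_U (s : ℕ) : ∀ m n, m + n = s → U (al m n) := by
  induction s using Nat.strong_induction_on with
  | _ s ih =>
    intro m n hs
    rcases Nat.eq_zero_or_pos m with rfl | hm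
    · rw [al_0n]; simp [U]
    rcases Nat.eq_zero_or_pos n with rfl | hn
    · rw [al_n0]; simp [U]
    have h1 : ∀ a b, a + b < s → U (al a b) := fun a b h => ih _ h a b rfl
    have h2 : ∀ a b, (a + 1) / 2 + (b + 1) / 2 < s → U (de a b) := by
      intro a b h
      rcases Nat.even_or_odd' a with ⟨a, rfl | rfl⟩ <;>
        rcases Nat.even_or_odd' b with ⟨b, rfl | rfl⟩
      · rw [de_ee]; exact (h1 _ _ (by omega)).mul (h1 _ _ (by omega))
      · rw [de_eo]; exact (h1 _ _ (by omega)).mul (h1 _ _ (by omega))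
      · rw [de_oe]; exact (U.sgn _).mul ((h1 _ _ (by omega)).mul (h1 _ _ (by omega)))
      · rw [de_oo]; simp [U]
    rcases Nat.even_or_odd' m with ⟨a, rfl | rfl⟩ <;>
      rcases Nat.even_or_odd' n with ⟨b, rfl | rfl⟩
    · rw [al_ee]; exact (U.sgn _).mul ((h1 _ _ (by omega)).mul (h2 _ _ (by omega)))
    · rw [al_eo]; exact (U.sgn _).mul ((h1 _ _ (by omega)).mul (h2 _ _ (by omega)))
    · rw [al_oe]; exact (U.sgn _).mul ((h1 _ _ (by omega)).mul (h2 _ _ (by omega)))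
    · rw [al_oo]; exact (U.sgn _).mul ((h1 _ _ (by omega)).mul (h2 _ _ (by omega)))

lemma hankel (p n : ℕ) :
    D n (fun i j => coeff (p + i + j + 2) A) = (-1) ^ (n / 2) * al (p + n + 1) n := by
  have h := D_invol n (n % 2) (fun i j => ext A ((p + n + 1 : ℕ) + j - i)) (fun i => n - 1 - i)
    (by intro i hi; omega) (by intro i hi; omega) (by
      rcases Nat.even_or_odd' n with ⟨a, rfl | rfl⟩
      · rw [show 2 * a % 2 = 0 by omega, Finset.card_eq_zero, Finset.filter_eq_empty_iff]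
        intro i hi
        rw [Finset.mem_range] at hi
        omega
      · rw [show (2 * a + 1) % 2 = 1 by omega, Finset.card_eq_one]
        refine ⟨a, ?_⟩
        ext i
        simp only [Finset.mem_filter, Finset.mem_range, Finset.mem_singleton]
        omega)
  rw [show (n - n % 2) / 2 = n / 2 by omega] at h
  rw [al, T, D_transpose n (fun i j => ext A _), ← h]
  refine D_congr fun i hi j _ => ?_
  rw [← ext_nat]
  congr 1
  omega

end Pool.Agent.H.MP_ff738c_co
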