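import Mathlib
import Pool.Agent.H.MP_ff738c_co.B

namespace Pool.Agent.H.MP_ff738c_co

open PowerSeries

lemma two0 : (2 : (ZMod 2)⟦X⟧) = 0 := by
  rw [← map_ofNat (C : ZMod 2 →+* (ZMod 2)⟦X⟧) 2, show (OfNat.ofNat 2 : ZMod 2) = 0 from rfl,
    map_zero]

lemma frob (f : (ZMod 2)⟦X⟧) : expand 2 two_ne_zero f = f ^ 2 := by
  have h := MvPowerSeries.map_frobenius_expand 2 two_ne_zero (f := f)
  rw [ZMod.frobenius_zmod, MvPowerSeries.map_id] at h
  exact h

noncomputable def F : (ZMod 2)⟦X⟧ := mk fun n => ((Nat.digits 2 n).sum : ZMod 2)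

lemma F_eq : (1 + X) ^ 2 * F = (1 + X) ^ 3 * F ^ 2 + X := by
  have h1 : F = (1 + X) * expand 2 two_ne_zero F + X * expand 2 two_ne_zero (mk 1) := by
    ext n
    rw [add_mul, one_mul, map_add, map_add]
    rcases Nat.even_or_odd' n with ⟨a, rfl | rfl⟩
    · rw [coeff_expand_mul]
      rcases a with _ | a
      · simp
      · rw [show 2 * (a + 1) = (2 * a + 1) + 1 by ring, coeff_succ_X_mul, coeff_succ_X_mul,
          coeff_expand_of_not_dvd _ _ _ (by omega), coeff_expand_of_not_dvd _ _ _ (by omega),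
          F, coeff_mk, coeff_mk, Nat.digits_def' (by norm_num) (by omega),
          show (2 * a + 1 + 1) % 2 = 0 by omega, show (2 * a + 1 + 1) / 2 = a + 1 by omega]
        simp
    · rw [coeff_succ_X_mul, coeff_succ_X_mul, coeff_expand_mul, coeff_expand_mul,
        coeff_expand_of_not_dvd _ _ _ (by omega), F, coeff_mk, coeff_mk, coeff_mk,
        Nat.digits_def' (by norm_num) (by omega),
        show (2 * a + 1) % 2 = 1 by omega, show (2 * a + 1) / 2 = a by omega]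
      simp [add_comm]
  rw [frob, frob] at h1
  have h2 : (mk 1 : (ZMod 2)⟦X⟧) * (1 - X) = 1 := mk_one_mul_one_sub_eq_one _
  have h3 : (2 : (ZMod 2)⟦X⟧) = 0 := two0
  have h4 : (mk 1 : (ZMod 2)⟦X⟧) * (1 + X) = 1 := by linear_combination h2 + mk 1 * X * h3
  linear_combination (1 + X) ^ 2 * h1 + X * (mk 1 * (1 + X) + 1) * h4

noncomputable def A2 : (ZMod 2)⟦X⟧ := map (Int.castRingHom (ZMod 2)) A

lemma A2_cube : A2 ^ 3 = 1 + X := by
  have h1 := congrArg (map (Int.castRingHom (ZMod 2))) P_one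
  rw [map_mul, map_mul, map_sub, map_one, map_X, E2, map_expand, frob] at h1
  rw [A2, A, map_mul, map_add, map_one, map_X, E2, map_expand, frob]
  generalize map (Int.castRingHom (ZMod 2)) B = b at *
  have h3 : (2 : (ZMod 2)⟦X⟧) = 0 := two0
  have h4 : b ^ 3 * (1 + X) = 1 := by linear_combination h1 + b ^ 3 * X * h3
  linear_combination (1 + X) * (b ^ 3 * (1 + X) + 1) * h4

lemma G_eq (G : (ZMod 2)⟦X⟧) (h0 : constantCoeff G = 0) (hG : F.subst G = X) :
    1 + X + X * G = A2 := by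
  have hs := HasSubst.of_constantCoeff_zero' h0
  have h1 := congrArg (substAlgHom hs) F_eq
  simp only [map_mul, map_add, map_pow, map_one, substAlgHom_X] at h1
  rw [coe_substAlgHom, hG] at h1
  have h3 : (2 : (ZMod 2)⟦X⟧) = 0 := two0
  have h2 : (1 + X + X * G) ^ 3 = 1 + X := by
    linear_combination (-X) * h1 + (X + X * G + 2 * X ^ 2 * (1 + G) ^ 2) * h3
  have h4 : (1 + X + X * G - A2) * ((1 + X + X * G) ^ 2 + (1 + X + X * G) * A2 + A2 ^ 2) = 0 := by
    linear_combination h2 - A2_cube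
  rcases mul_eq_zero.1 h4 with h | h
  · exact sub_eq_zero.1 h
  · have h5 := congrArg constantCoeff h
    have h6 : constantCoeff A2 = 1 := by
      rw [← coeff_zero_eq_constantCoeff_apply, A2, coeff_map]
      simp [A, E2, B0]
    simp only [map_add, map_mul, map_pow, map_one, constantCoeff_X, h6, map_zero,
      zero_mul] at h5
    exact absurd h5 (by decide)

lemma A_coeff (n : ℕ) : coeff n A = M (n / 2) := by
  rw [← ext_nat]
  rcases Nat.even_or_odd' n with ⟨a, rfl | rfl⟩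
  · push_cast
    rw [A_0, ext_nat, B, coeff_mk]; simp
  · push_cast
    rw [A_1, ext_nat, B, coeff_mk, one_mul, show (2 * a + 1) / 2 = a by omega]

lemma G_coeff (G : (ZMod 2)⟦X⟧) (h0 : constantCoeff G = 0) (hG : F.subst G = X) (m : ℕ) :
    ((coeff (m + 1) G).val : ℤ) = coeff (m + 2) A := by
  have h := congrArg (coeff (m + 2)) (G_eq G h0 hG)
  rw [map_add, map_add, coeff_succ_X_mul, coeff_one, coeff_X, if_neg (by omega),
    if_neg (by omega), zero_add, zero_add, A2, coeff_map] at h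
  rw [h, A_coeff]
  rcases M_cases ((m + 2) / 2) with e | e <;> rw [e] <;> rfl

lemma G_exists : ∃ G : (ZMod 2)⟦X⟧, constantCoeff G = 0 ∧ F.subst G = X := by
  have h1 : IsUnit (coeff 1 F) := by simp [F]
  have h0 : constantCoeff F = 0 := by
    rw [← coeff_zero_eq_constantCoeff_apply]; simp [F]
  exact ⟨F.substInvOfIsUnit h1, constantCoeff_substInvOfIsUnit _ _,
    subst_substInvOfIsUnit_right _ h0 _⟩

lemma det_eq (G : (ZMod 2)⟦X⟧) (h0 : constantCoeff G = 0) (hG : F.subst G = X) (p n : ℕ) :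
    (Matrix.of fun i j : Fin n => ((coeff (p + i + j + 1) G).val : ℤ)).det =
      (-1) ^ (n / 2) * al (p + n + 1) n := by
  rw [← hankel, D]
  simp only [G_coeff G h0 hG]

noncomputable def N (n : ℕ) : ℤ := if n % 2 = 0 then M (n / 2) else 0

lemma N0 (n : ℕ) : N (2 * n) = M n := by simp [N]
lemma N1 (n : ℕ) : N (2 * n + 1) = 0 := if_neg (by omega)
lemma M_even (n : ℕ) : M (2 * n) = N n := by
  rcases Nat.even_or_odd' n with ⟨a, rfl | rfl⟩
  · rw [N0, show 2 * (2 * a) = 4 * a by ring, M0]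
  · rw [N1, show 2 * (2 * a + 1) = 4 * a + 2 by ring, M2]
lemma M_odd (n : ℕ) : M (2 * n + 1) = N n := by
  rcases Nat.even_or_odd' n with ⟨a, rfl | rfl⟩
  · rw [N0, show 2 * (2 * a) + 1 = 4 * a + 1 by ring, M1]
  · rw [N1, show 2 * (2 * a + 1) + 1 = 4 * a + 3 by ring, M3]
lemma M_sq (n : ℕ) : M n * M n = M n := by rcases M_cases n with e | e <;> simp [e]
lemma N_sq (n : ℕ) : N n * N n = N n := by unfold N; split_ifs <;> simp [M_sq]
lemma N_succ (n : ℕ) : N n * N (n + 1) = 0 := by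
  unfold N
  by_cases h : n % 2 = 0
  · rw [if_neg (show ¬ (n + 1) % 2 = 0 by omega), mul_zero]
  · rw [if_neg h, zero_mul]
lemma sg (a b : ℕ) : (-1 : ℤ) ^ (2 * a * b) = 1 := by rw [mul_assoc, pow_mul]; simp
lemma sg' (a b : ℕ) : (-1 : ℤ) ^ (a * (2 * b)) = 1 := by rw [mul_comm, sg]

lemma lines (n : ℕ) : al (2 * n) n = M n ∧ al (2 * n + 1) n = M n ∧ al n (2 * n) = N n ∧
    al n (2 * n + 1) = N n ∧ al (n + 1) (2 * n + 1) = N n ∧ al (n + 1) (2 * n) = N n := by
  induction n using Nat.strong_induction_on with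
  | _ n ih =>
    rcases Nat.eq_zero_or_pos n with rfl | hn
    · have h11 : al 1 1 = 1 := by
        have := al_oo 0 0
        simp only [mul_zero, zero_add, pow_zero, one_mul, al_n0] at this
        have h2 := de_eo 0 0
        simp only [mul_zero, zero_add, al_n0, one_mul] at h2
        rw [this, h2]
      simp [al_n0, al_0n, M_zero, N, h11]
    obtain ⟨q, r, hr, rfl⟩ : ∃ q r, r < 4 ∧ n = 4 * q + r := ⟨n / 4, n % 4, by omega, by omega⟩
    obtain ⟨a1, a2, a3, a4, a5, a6⟩ := ih q (by omega)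
    obtain ⟨b1, b2, b3, b4, b5, b6⟩ := ih (2 * q) (by omega)
    have m2 := M_sq q
    have n2 := N_sq q
    rw [M_even] at b1 b2
    rw [N0] at b3 b4 b5 b6
    interval_cases r
    · rw [add_zero, M0, show 4 * q = 2 * (2 * q) by ring, N0, M_even]
      refine ⟨?_, ?_, ?_, ?_, ?_, ?_⟩
      · rw [al_ee, sg, de_ee, b3, a1, m2, m2, one_mul]
      · rw [al_oe, sg, de_eo, b3, a1, a2, m2, m2, one_mul]
      · rw [al_ee, sg, de_ee, b1, a3, n2, n2, one_mul]
      · rw [al_eo, sg, de_ee, b2, a3, n2, n2, one_mul]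
      · rw [al_oo, sg, de_eo, b2, a3, a6, n2, n2, one_mul]
      · rw [al_oe, sg, de_eo, b1, a3, a6, n2, n2, one_mul]
    · rw [M1, show 4 * q + 1 = 2 * (2 * q) + 1 by ring, N1]
      refine ⟨?_, ?_, ?_, ?_, ?_, ?_⟩
      · rw [al_eo, sg, de_eo, b5, a1, a2, m2, m2, one_mul]
      · rw [al_oo, sg, show 2 * (2 * q) + 1 + 1 = 2 * (2 * q + 1) by ring, de_ee, b5, a2, m2, m2,
          one_mul]
      · rw [al_oe, de_oo]; simp
      · rw [al_oo, de_oo]; simp
      · rw [show 2 * (2 * q) + 1 + 1 = 2 * (2 * q + 1) by ring, al_eo, de_oo]; simp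
      · rw [show 2 * (2 * q) + 1 + 1 = 2 * (2 * q + 1) by ring, al_ee, de_oo]; simp
    · obtain ⟨c1, c2, c3, c4, c5, c6⟩ := ih (2 * q + 1) (by omega)
      rw [M_odd] at c1 c2
      rw [N1] at c3 c4 c5 c6
      rw [M2, show 4 * q + 2 = 2 * (2 * q + 1) by ring, N0, M_odd]
      refine ⟨?_, ?_, ?_, ?_, ?_, ?_⟩
      · rw [al_ee, c3]; simp
      · rw [al_oe, c3]; simp
      · rw [al_ee, sg, de_eo, c1, a4, a5, n2, n2, one_mul]
      · rw [al_eo, sg, de_eo, c2, a4, a5, n2, n2, one_mul]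
      · rw [al_oo, sg, show 2 * q + 1 + 1 = 2 * (q + 1) by ring, de_ee, c2, a5, n2, n2, one_mul]
      · rw [al_oe, sg, show 2 * q + 1 + 1 = 2 * (q + 1) by ring, de_ee, c1, a5, n2, n2, one_mul]
    · obtain ⟨c1, c2, c3, c4, c5, c6⟩ := ih (2 * q + 1) (by omega)
      obtain ⟨-, -, d3, -⟩ := ih (q + 1) (by omega)
      rw [N1] at c5
      have hz : de (2 * (2 * q + 1) + 1) (2 * q + 1 + 1) = 0 := by
        rw [show 2 * q + 1 + 1 = 2 * (q + 1) by ring, de_oe, a5,
          show 2 * q + 1 + 1 = 2 * (q + 1) by ring, d3, N_succ, mul_zero]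
      rw [M3, show 4 * q + 3 = 2 * (2 * q + 1) + 1 by ring, N1]
      refine ⟨?_, ?_, ?_, ?_, ?_, ?_⟩
      · rw [al_eo, c5]; simp
      · rw [al_oo, c5]; simp
      · rw [al_oe, hz]; simp
      · rw [al_oo, hz]; simp
      · rw [show 2 * (2 * q + 1) + 1 + 1 = 2 * (2 * q + 1 + 1) by ring, al_eo, hz]; simp
      · rw [show 2 * (2 * q + 1) + 1 + 1 = 2 * (2 * q + 1 + 1) by ring, al_ee, hz]; simp

lemma diag (n : ℕ) : (-1) ^ (n / 2) * al (n + n + 1) n = M n := by
  rw [← two_mul, (lines n).2.1]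
  obtain ⟨q, r, hr, rfl⟩ : ∃ q r, r < 4 ∧ n = 4 * q + r := ⟨n / 4, n % 4, by omega, by omega⟩
  interval_cases r
  · rw [show (4 * q + 0) / 2 = 2 * q by omega, pow_mul]; simp
  · rw [show (4 * q + 1) / 2 = 2 * q by omega, pow_mul]; simp
  · rw [M2, mul_zero]
  · rw [M3, mul_zero]

end Pool.Agent.H.MP_ff738c_co
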